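import Pool.Agent.R509.CE.Half
import Pool.Agent.R509.PP.Abs

/-!
Library R509.FS (helper509): local autocorrelations of processes with values `1` and `-1` whose spectrum has no
atoms at roots of unity.
-/

set_option autoImplicit false

namespace Pool.Agent.R509.FS

open Finset MeasureTheory Filter Topology
open Pool.Agent.R509.CD Pool.Agent.R509.CE

/-- the coefficients of `x ^ k` -/
noncomputable def sg (k i : ℕ) : ℝ := if i = k then 1 else 0

lemma ps_sg (k : ℕ) (x : ℝ) : ps (sg k) k x = x ^ k := by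
  unfold ps sg
  rw [sum_eq_single k]
  · simp
  · intro i _ hi
    simp [hi]
  · intro h
    exact absurd (mem_range.2 (Nat.lt_succ_self k)) h

lemma good_pow (k : ℕ) (hk : Even k) : Good (sg k) k (1 / (k + 1)) k where
  c_nonneg := fun i => by unfold sg; split_ifs <;> norm_num
  sum_le := by
    have := ps_sg k 1
    unfold ps at this
    simp only [one_pow, mul_one] at this
    rw [this]
  conv := by
    have h1 : ps (sg k) k = fun x => x ^ k := funext fun x => ps_sg k x
    rw [h1]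
    exact (hk.convexOn_pow (𝕜 := ℝ)).subset (Set.subset_univ _) (convex_Icc _ _)
  nonneg := fun x _ => by
    rw [ps_sg]
    exact hk.pow_nonneg x
  mean := fun n hn => by
    rw [sum_congr rfl fun d _ => ps_sg k _]
    refine (sum_pow_le n k hn hk).trans (le_of_eq ?_)
    ring
  L_nonneg := Nat.cast_nonneg k

theorem gen {c : ℕ → ℝ} {k : ℕ} {I L : ℝ} (h : Good c k I L) (ε : ℝ) (hε : 0 < ε) :
    ∃ M p₁ : ℕ, 1 ≤ M ∧ ∀ p : ℕ, p.Prime → p₁ ≤ p → ∃ C : ℕ, 1 ≤ C ∧
      ∀ f : ℕ → ℝ, (∀ n, f n = 1 ∨ f n = -1) → ∀ H X : ℕ, C ≤ H → C * H ≤ X →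
      ∑ n ∈ range X, ∑ a ∈ Icc 1 H, ps c k (S f H n a) ≤
        (I + ε) * X * H + k * H * ∑ m ∈ Icc 1 M, ∑ n ∈ range X, avn f m p n ^ 2 := by
  have hk0 : (0 : ℝ) ≤ k := Nat.cast_nonneg k
  have hL := h.L_nonneg
  -- parameters
  set δ : ℝ := ε / (12 * (k + 1)) with hδ
  have hδ0 : 0 < δ := by positivity
  obtain ⟨N0, hN0⟩ := exists_nat_ge (1 / δ)
  obtain ⟨q1, hq1⟩ := exists_nat_ge (26 / δ)
  set Q : ℕ := 26 * (k + 1) + q1 with hQ
  have hQ26 : 26 * (k + 1) ≤ Q := by omega
  have hQ0 : (0 : ℝ) < Q := by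
    have : 0 < Q := by omega
    exact_mod_cast this
  have hQδ : 26 / (Q : ℝ) ≤ δ := by
    rw [div_le_iff₀ hQ0]
    rw [div_le_iff₀ hδ0] at hq1
    have : (q1 : ℝ) ≤ Q := by exact_mod_cast (by omega : q1 ≤ Q)
    nlinarith
  set M : ℕ := Q ^ N0 with hM
  have hM1 : 1 ≤ M := Nat.one_le_pow _ _ (by omega)
  have hM0 : (0 : ℝ) < M := by exact_mod_cast hM1
  have hMr : (Q : ℝ) ^ N0 = M := by rw [hM]; push_cast; rfl
  obtain ⟨p1, hp1⟩ := exists_nat_ge ((L + k) / δ)
  refine ⟨M, p1 + 1, hM1, fun p hprime hpp => ?_⟩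
  have : Fact p.Prime := ⟨hprime⟩
  have hp0 : (0 : ℝ) < p := by exact_mod_cast hprime.pos
  have hpδ : (L + k) / (p : ℝ) ≤ δ := by
    rw [div_le_iff₀ hp0]
    rw [div_le_iff₀ hδ0] at hp1
    have : (p1 : ℝ) ≤ p := by exact_mod_cast (by omega : p1 ≤ p)
    nlinarith
  set w : ℝ := 1 / (4 * (M * p) * Q) with hw
  have hw0 : 0 < w := by positivity
  have hw2 : 4 * ((Q : ℝ) ^ N0 * p) * w ≤ 1 / Q := by
    rw [hMr, hw]
    apply le_of_eq
    field_simp
  obtain ⟨A', hA'⟩ := exists_nat_ge ((1 / δ + 1) / w)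
  set A : ℕ := A' + 1 with hA
  have hA1 : 1 ≤ A := by omega
  have hA0 : (0 : ℝ) < A := by exact_mod_cast hA1
  have hAw : 1 / (4 * (A : ℝ) ^ 2 * w ^ 2) ≤ δ := by
    rw [div_le_iff₀ (by positivity)]
    rw [div_le_iff₀ hw0] at hA'
    have h1 : (A' : ℝ) ≤ A := by exact_mod_cast (by omega : A' ≤ A)
    have h2 : 1 / δ + 1 ≤ A * w := hA'.trans (mul_le_mul_of_nonneg_right h1 hw0.le)
    have h3 : 0 < 1 / δ := by positivity
    have h4 : (1 / δ + 1) * 1 ≤ (A * w) * (A * w) := mul_le_mul h2 (by linarith) zero_le_one (by positivity)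
    have h5 : δ * (1 / δ) = 1 := by field_simp
    nlinarith
  obtain ⟨K', hK'⟩ := exists_nat_ge (2 * A / δ + M * (M * p) / δ)
  set K : ℕ := K' + A + M * p with hK
  have hAK : A ≤ K := by omega
  have hpK : M * p ≤ K := by omega
  have hK0 : (0 : ℝ) < K := by
    have : 0 < K := by omega
    exact_mod_cast this
  have hKK : 2 * A / δ + M * (M * p) / δ ≤ K := hK'.trans (by exact_mod_cast (by omega : K' ≤ K))
  have hKa : 2 * (A : ℝ) / K ≤ δ := by
    rw [div_le_iff₀ hK0]
    have h1 : 2 * (A : ℝ) / δ ≤ K := by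
      have : (0 : ℝ) ≤ M * (M * p) / δ := by positivity
      linarith
    rw [div_le_iff₀ hδ0] at h1
    linarith
  have hKm : (M : ℝ) * (M * p / K) ≤ δ := by
    have h1 : (M : ℝ) * (M * p) / δ ≤ K := by
      have : (0 : ℝ) ≤ 2 * A / δ := by positivity
      linarith
    rw [div_le_iff₀ hδ0] at h1
    rw [← mul_div_assoc, div_le_iff₀ hK0]
    linarith
  obtain ⟨C', hC'⟩ := exists_nat_ge (2 * K / δ + A / δ + M * K / δ + 2 / δ)
  set C : ℕ := C' + 1 with hC
  refine ⟨C, by omega, fun f hf H X hH hX => ?_⟩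
  have hCC : 2 * K / δ + A / δ + M * K / δ + 2 / δ ≤ C := hC'.trans (by exact_mod_cast (by omega : C' ≤ C))
  have hH1 : 1 ≤ H := by omega
  have hCX : C ≤ X := (Nat.le_mul_of_pos_right C (by omega)).trans hX
  have hHr : (C : ℝ) ≤ H := by exact_mod_cast hH
  have hXr : (C : ℝ) * H ≤ X := by exact_mod_cast hX
  have hCXr : (C : ℝ) ≤ X := by exact_mod_cast hCX
  have hH0 : (0 : ℝ) < H := by exact_mod_cast hH1
  have hX0 : (0 : ℝ) < X := by
    have : 0 < X := by omega
    exact_mod_cast this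
  have g1 : (0 : ℝ) ≤ 2 * K / δ := by positivity
  have g2 : (0 : ℝ) ≤ A / δ := by positivity
  have g3 : (0 : ℝ) ≤ M * K / δ := by positivity
  have g4 : (0 : ℝ) ≤ 2 / δ := by positivity
  have key := seq' (f := f) h hf Q N0 A K H X p hQ26 δ w hδ0 hN0 hw0 hw2 hA1 hAK hpK hH1
  rw [hMr] at key
  have hXH : (0 : ℝ) < X * H := by positivity
  -- the error terms
  have t1 : (X : ℝ) * H * (I + 1 / (4 * (A : ℝ) ^ 2 * w ^ 2) + k * δ + 26 * k / Q + (L + k) / p) ≤
      X * H * (I + δ + k * δ + k * δ + δ) := by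
    apply mul_le_mul_of_nonneg_left _ hXH.le
    have e1 : 26 * (k : ℝ) / Q ≤ k * δ := by
      have : 26 * (k : ℝ) / Q = k * (26 / Q) := by ring
      rw [this]
      exact mul_le_mul_of_nonneg_left hQδ hk0
    linarith
  have t3 : (k : ℝ) * H * M * (K + X * (M * p / K)) ≤ X * H * (k * δ + k * δ) := by
    have e1 : (M : ℝ) * K ≤ X * δ := by
      have : (M : ℝ) * K / δ ≤ X := by linarith
      rwa [div_le_iff₀ hδ0] at this
    have e2 : (M : ℝ) * (X * (M * p / K)) ≤ X * δ := by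
      have := mul_le_mul_of_nonneg_left hKm hX0.le
      linarith
    have e3 : (k : ℝ) * H * M * (K + X * (M * p / K)) = (k * H) * (M * K + M * (X * (M * p / K))) := by ring
    rw [e3]
    have := mul_le_mul_of_nonneg_left (add_le_add e1 e2) (by positivity : (0 : ℝ) ≤ k * H)
    linarith
  have t4 : (X : ℝ) * H * (k * (2 * A / K)) ≤ X * H * (k * δ) := by
    apply mul_le_mul_of_nonneg_left _ hXH.le
    exact mul_le_mul_of_nonneg_left hKa hk0
  have t5 : (2 : ℝ) * H * H ≤ X * H * δ := by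
    have e1 : 2 / δ * H ≤ X := by
      have : 2 / δ * H ≤ C * H := mul_le_mul_of_nonneg_right (by linarith) hH0.le
      linarith
    have e2 : 2 * (H : ℝ) ≤ X * δ := by
      have := mul_le_mul_of_nonneg_right e1 hδ0.le
      have e3 : 2 / δ * H * δ = 2 * H := by field_simp
      linarith
    have e4 := mul_le_mul_of_nonneg_right e2 hH0.le
    linarith
  have t6 : (A : ℝ) * (H + X) ≤ X * H * (δ + δ) := by
    have e1 : (A : ℝ) ≤ X * δ := by
      have : (A : ℝ) / δ ≤ X := by linarith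
      rwa [div_le_iff₀ hδ0] at this
    have e2 : (A : ℝ) ≤ H * δ := by
      have : (A : ℝ) / δ ≤ H := by linarith
      rwa [div_le_iff₀ hδ0] at this
    have e3 := mul_le_mul_of_nonneg_right e1 hH0.le
    have e4 := mul_le_mul_of_nonneg_right e2 hX0.le
    linarith
  have t7 : (X : ℝ) * H * (k * (2 * K / H)) ≤ X * H * (k * δ) := by
    apply mul_le_mul_of_nonneg_left _ hXH.le
    apply mul_le_mul_of_nonneg_left _ hk0
    rw [div_le_iff₀ hH0]
    have : 2 * (K : ℝ) / δ ≤ H := by linarith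
    rw [div_le_iff₀ hδ0] at this
    linarith
  have hfin : X * H * (I + δ + k * δ + k * δ + δ) + (X * H * (k * δ + k * δ) + X * H * (k * δ) +
      X * H * δ + X * H * (δ + δ) + X * H * (k * δ)) ≤ (I + ε) * X * H := by
    have e1 : 6 * (k * δ) + 5 * δ ≤ ε := by
      rw [hδ]
      have : 6 * ((k : ℝ) * (ε / (12 * (k + 1)))) + 5 * (ε / (12 * (k + 1))) = ε * ((6 * k + 5) / (12 * (k + 1))) := by
        field_simp
      rw [this]
      have : (6 * (k : ℝ) + 5) / (12 * (k + 1)) ≤ 1 := by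
        rw [div_le_one (by positivity)]
        linarith
      nlinarith
    have e2 := mul_le_mul_of_nonneg_left e1 hXH.le
    linarith
  linarith

section erg

variable {Y : Type*} [MeasurableSpace Y]

omit [MeasurableSpace Y] in
lemma S_orb (T : Y → Y) (g : Y → ℝ) (H n a : ℕ) (x : Y) :
    S (fun i => g (T^[i] x)) H n a = S (fun i => g (T^[i] (T^[n] x))) H 0 a := by
  unfold S
  congr 1
  apply sum_congr rfl
  intro b _
  simp only [← Function.iterate_add_apply]
  rw [show 0 + b + n = n + b by ring, show 0 + b + a + n = n + b + a by ring]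

omit [MeasurableSpace Y] in
lemma avn_orb (T : Y → Y) (g : Y → ℝ) (m p n : ℕ) (x : Y) :
    avn (fun i => g (T^[i] x)) m p n = avn (fun i => g (T^[i] (T^[n] x))) m p 0 := by
  unfold avn
  congr 1
  apply sum_congr rfl
  intro b _
  simp only [← Function.iterate_add_apply]
  congr 2
  ring

omit [MeasurableSpace Y] in
lemma iter_inv {T : Y → Y} {E : Set Y} (hinv : T ⁻¹' E = E) (n : ℕ) (x : Y) : T^[n] x ∈ E ↔ x ∈ E := by
  induction n generalizing x with
  | zero => rfl
  | succ n ih =>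
    rw [Function.iterate_succ_apply, ih]
    exact Set.ext_iff.1 hinv x

/-- integrals over invariant sets -/
lemma inv_int_set (μ : Measure Y) (T : Y → Y) (hT : MeasurePreserving T μ μ) (φ : Y → ℝ)
    (hφ : Measurable φ) (E : Set Y) (hE : MeasurableSet E) (hinv : T ⁻¹' E = E) (n : ℕ) :
    ∫ x in E, φ (T^[n] x) ∂μ = ∫ x in E, φ x ∂μ := by
  rw [← integral_indicator hE, ← integral_indicator hE]
  have h1 : E.indicator (fun x => φ (T^[n] x)) = fun x => (E.indicator φ) (T^[n] x) := by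
    funext x
    by_cases hx : x ∈ E
    · rw [Set.indicator_of_mem hx, Set.indicator_of_mem ((iter_inv hinv n x).2 hx)]
    · rw [Set.indicator_of_notMem hx, Set.indicator_of_notMem (fun h => hx ((iter_inv hinv n x).1 h))]
  rw [h1]
  exact Pool.Agent.R509.PP.inv_int μ T hT (E.indicator φ) (hφ.indicator hE).aestronglyMeasurable n

/-- **Convex moments of the local autocorrelations.** -/
theorem erg (μ : Measure Y) [IsProbabilityMeasure μ] (T : Y → Y) (hT : MeasurePreserving T μ μ) (g : Y → ℝ)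
    (hgm : Measurable g) (hpm : ∀ x, g x = 1 ∨ g x = -1)
    (hc : Tendsto (fun H : ℕ => (1 / (H : ℝ)) * ∑ h ∈ range H, |∫ x, g x * g (T^[h + 1] x) ∂μ|) atTop (𝓝 0))
    {c : ℕ → ℝ} {k : ℕ} {I L : ℝ} (h : Good c k I L) (ε : ℝ) (hε : 0 < ε) :
    ∃ C : ℕ, 1 ≤ C ∧ ∀ H : ℕ, C ≤ H → ∀ E : Set Y, MeasurableSet E → T ⁻¹' E = E →
      ∫ x in E, ∑ a ∈ Icc 1 H, ps c k (S (fun n => g (T^[n] x)) H 0 a) ∂μ ≤ (I * μ.real E + ε) * H := by
  have hk0 : (0 : ℝ) ≤ k := Nat.cast_nonneg k
  have hg1 : ∀ x, |g x| ≤ 1 := fun x => by rcases hpm x with h | h <;> rw [h] <;> norm_num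
  have hgn : ∀ n : ℕ, Measurable fun x => g (T^[n] x) := fun n => hgm.comp (hT.iterate n).measurable
  obtain ⟨M, p₁, hM1, hgen⟩ := gen h (ε / 2) (by positivity)
  have hM0 : (0 : ℝ) < M := by exact_mod_cast hM1
  set κ : ℝ := ε / (2 * (k + 1) * M) with hκ
  have hκ0 : 0 < κ := by positivity
  have hev : ∀ᶠ p : ℕ in atTop, ∀ m ∈ Icc 1 M, ∫ x, |∑ j ∈ range p, g (T^[m * j] x)| / p ∂μ ≤ κ := by
    rw [Filter.eventually_all_finset]
    intro m hm
    exact Pool.Agent.R509.PP.ap_means μ T hT g hgm hg1 hc m (mem_Icc.1 hm).1 κ hκ0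
  obtain ⟨p₂, hp₂⟩ := eventually_atTop.1 hev
  obtain ⟨p, hpp, hprime⟩ := Nat.exists_infinite_primes (p₁ + p₂)
  have hap := hp₂ p (by omega)
  obtain ⟨C, hC1, hC⟩ := hgen p hprime (by omega)
  refine ⟨C, hC1, fun H hH E hE hinv => ?_⟩
  set X : ℕ := C * H with hX
  have hH0 : (0 : ℝ) < H := by exact_mod_cast (by omega : 0 < H)
  have hX1 : 1 ≤ X := Nat.mul_pos hC1 (by omega)
  have hX0 : (0 : ℝ) < X := by exact_mod_cast hX1
  have hpmx : ∀ x : Y, ∀ n : ℕ, g (T^[n] x) = 1 ∨ g (T^[n] x) = -1 := fun x n => hpm _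
  -- the functions
  set F : Y → ℝ := fun x => ∑ a ∈ Icc 1 H, ps c k (S (fun n => g (T^[n] x)) H 0 a) with hF
  have hSm : ∀ a : ℕ, Measurable fun x => S (fun n => g (T^[n] x)) H 0 a := fun a => by
    unfold S
    exact (Finset.measurable_sum _ fun b _ => (hgn _).mul (hgn _)).div_const _
  have hFm : Measurable F := by
    refine Finset.measurable_sum _ fun a _ => ?_
    unfold ps
    exact Finset.measurable_sum _ fun i _ => ((hSm a).pow_const i).const_mul _
  have hFb : ∀ x, |F x| ≤ H := fun x => by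
    rw [hF]
    refine (abs_sum_le_sum_abs _ _).trans ?_
    refine (sum_le_sum (g := fun _ => (1 : ℝ)) fun a _ => ?_).trans (le_of_eq ?_)
    · have h1 := S_abs (hpmx x) H 0 a
      rw [abs_of_nonneg (ps_nonneg h _ h1)]
      exact ps_le h _ h1
    · rw [sum_const, Nat.card_Icc, Nat.add_sub_cancel, nsmul_eq_mul, mul_one]
  set G : ℕ → Y → ℝ := fun m x => avn (fun n => g (T^[n] x)) m p 0 ^ 2 with hG
  have hGm : ∀ m, Measurable (G m) := fun m => by
    rw [hG]
    unfold avn
    exact ((Finset.measurable_sum _ fun b _ => hgn _).div_const _).pow_const 2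
  have hG1 : ∀ m x, 0 ≤ G m x ∧ G m x ≤ |∑ j ∈ range p, g (T^[m * j] x)| / p := fun m x => by
    refine ⟨sq_nonneg _, ?_⟩
    have h1 := avn_abs (hpmx x) m p 0
    have h2 : |avn (fun n => g (T^[n] x)) m p 0| = |∑ j ∈ range p, g (T^[m * j] x)| / p := by
      unfold avn
      rw [abs_div, Nat.abs_cast]
      simp only [zero_add]
    rw [← h2, hG]
    simp only
    rw [← sq_abs]
    nlinarith [abs_nonneg (avn (fun n => g (T^[n] x)) m p 0)]
  have hGb : ∀ m x, |G m x| ≤ 1 := fun m x => by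
    rw [abs_of_nonneg (hG1 m x).1]
    have h1 := avn_abs (hpmx x) m p 0
    rw [hG]
    simp only
    rw [← sq_abs]
    exact pow_le_one₀ (abs_nonneg _) h1
  have hint : ∀ (φ : Y → ℝ) (B : ℝ), Measurable φ → (∀ x, |φ x| ≤ B) → ∀ ν : Measure Y, IsFiniteMeasure ν → Integrable φ ν := by
    intro φ B hφ hB ν hν
    exact Integrable.of_bound hφ.aestronglyMeasurable B (Eventually.of_forall fun x => by
      rw [Real.norm_eq_abs]; exact hB x)
  have hTn : ∀ n : ℕ, Measurable (T^[n]) := fun n => (hT.iterate n).measurable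
  -- pointwise inequality
  have hpt : ∀ x, ∑ n ∈ range X, F (T^[n] x) ≤
      (I + ε / 2) * X * H + k * H * ∑ m ∈ Icc 1 M, ∑ n ∈ range X, G m (T^[n] x) := by
    intro x
    have h1 := hC (fun n => g (T^[n] x)) (hpmx x) H X hH le_rfl
    simp only [hF, hG]
    rw [sum_congr rfl fun n _ => sum_congr rfl fun a _ => congrArg (ps c k) (S_orb T g H n a x)] at h1
    rw [sum_congr rfl fun m _ => sum_congr rfl fun n _ => congrArg (fun z => z ^ 2) (avn_orb T g m p n x)] at h1
    exact h1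
  have hIF : ∀ n, Integrable (fun x => F (T^[n] x)) (μ.restrict E) := fun n =>
    hint _ H (hFm.comp (hTn n)) (fun x => hFb _) _ inferInstance
  have hIG : ∀ m n, Integrable (fun x => G m (T^[n] x)) (μ.restrict E) := fun m n =>
    hint _ 1 ((hGm m).comp (hTn n)) (fun x => hGb _ _) _ inferInstance
  have hi := integral_mono (μ := μ.restrict E) (integrable_finsetSum _ fun n _ => hIF n)
    ((integrable_const _).add ((integrable_finsetSum _ fun m _ => integrable_finsetSum _ fun n _ => hIG m n).const_mul _))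
    hpt
  rw [integral_finsetSum _ fun n _ => hIF n] at hi
  simp only [Pi.add_apply] at hi
  rw [integral_add (integrable_const _)
    ((integrable_finsetSum _ fun m _ => integrable_finsetSum _ fun n _ => hIG m n).const_mul _), integral_const_mul ((k : ℝ) * H),
    integral_finsetSum _ fun m _ => integrable_finsetSum _ fun n _ => hIG m n] at hi
  have e1 : ∀ n ∈ range X, ∫ x in E, F (T^[n] x) ∂μ = ∫ x in E, F x ∂μ := fun n _ =>
    inv_int_set μ T hT F hFm E hE hinv n
  rw [sum_congr rfl e1, sum_const, card_range, nsmul_eq_mul] at hi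
  have e2 : ∫ x in E, (I + ε / 2) * X * H ∂μ = (I + ε / 2) * X * H * μ.real E := by
    rw [integral_const, smul_eq_mul, measureReal_restrict_apply_univ, mul_comm]
  have e3 : ∑ m ∈ Icc 1 M, ∫ x in E, ∑ n ∈ range X, G m (T^[n] x) ∂μ ≤ M * (X * κ) := by
    refine (sum_le_sum (g := fun _ => (X : ℝ) * κ) fun m hm => ?_).trans (le_of_eq ?_)
    · rw [integral_finsetSum _ fun n _ => hIG m n,
        sum_congr rfl fun n _ => inv_int_set μ T hT (G m) (hGm m) E hE hinv n, sum_const, card_range, nsmul_eq_mul]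
      apply mul_le_mul_of_nonneg_left _ hX0.le
      have h1 : ∫ x in E, G m x ∂μ ≤ ∫ x, G m x ∂μ :=
        setIntegral_le_integral (hint _ 1 (hGm m) (hGb m) μ inferInstance) (Eventually.of_forall fun x => (hG1 m x).1)
      have hAm : Measurable fun x => |∑ j ∈ range p, g (T^[m * j] x)| / p :=
        ((continuous_abs.measurable.comp (Finset.measurable_sum _ fun j _ => hgn (m * j)))).div_const _
      have h2 : ∫ x, G m x ∂μ ≤ ∫ x, |∑ j ∈ range p, g (T^[m * j] x)| / p ∂μ := by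
        refine integral_mono (hint _ 1 (hGm m) (hGb m) μ inferInstance) (hint _ 1 hAm (fun x => ?_) μ inferInstance)
          fun x => (hG1 m x).2
        rw [abs_of_nonneg (by positivity)]
        apply div_le_one_of_le₀ _ (Nat.cast_nonneg _)
        refine (abs_sum_le_sum_abs _ _).trans ((sum_le_sum fun i _ => hg1 _).trans ?_)
        rw [sum_const, card_range, nsmul_eq_mul, mul_one]
      exact h1.trans (h2.trans (hap m hm))
    · rw [sum_const, Nat.card_Icc, Nat.add_sub_cancel, nsmul_eq_mul]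
  rw [e2] at hi
  have hE1 : μ.real E ≤ 1 := measureReal_le_one
  have hE0 : 0 ≤ μ.real E := measureReal_nonneg
  have e4 : (k : ℝ) * H * (M * (X * κ)) ≤ X * H * (ε / 2) := by
    have h1 : (k : ℝ) * M * κ ≤ ε / 2 := by
      rw [hκ]
      have h2 : (k : ℝ) * M * (ε / (2 * (k + 1) * M)) = ε / 2 * (k / (k + 1)) := by
        field_simp
      rw [h2]
      have h3 : (k : ℝ) / (k + 1) ≤ 1 := by
        rw [div_le_one (by positivity)]
        linarith
      nlinarith
    have h4 : (k : ℝ) * H * (M * (X * κ)) = (X * H) * (k * M * κ) := by ring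
    rw [h4]
    exact mul_le_mul_of_nonneg_left h1 (by positivity)
  have e5 : (k : ℝ) * H * ∑ m ∈ Icc 1 M, ∫ x in E, ∑ n ∈ range X, G m (T^[n] x) ∂μ ≤ X * H * (ε / 2) :=
    (mul_le_mul_of_nonneg_left e3 (by positivity)).trans e4
  have e6 : (X : ℝ) * ∫ x in E, F x ∂μ ≤ X * ((I * μ.real E + ε) * H) := by
    have h1 : (I + ε / 2) * X * H * μ.real E ≤ X * H * (I * μ.real E + ε / 2) := by
      have : (ε / 2) * μ.real E ≤ ε / 2 := by nlinarith
      have h2 : (I + ε / 2) * X * H * μ.real E = X * H * (I * μ.real E + ε / 2 * μ.real E) := by ring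
      rw [h2]
      apply mul_le_mul_of_nonneg_left _ (by positivity)
      linarith
    linarith
  exact le_of_mul_le_mul_left e6 hX0

end erg

end Pool.Agent.R509.FS
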